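import Mathlib
import Pool.Agent.H84.SR.Main2

/-!
# Almost every rational map of small resultant is hyperbolic, with a rate
-/

set_option autoImplicit false

namespace Pool.Agent.Results.MP_8f2e1c_an.SmallResultant

open Polynomial Filter Topology MeasureTheory

/-- The rational map `P/Q` is hyperbolic, in the words of the frozen statement `S05373`: every
critical point is attracted to an attracting periodic cycle. -/
def IsHyperbolic (P Q : Polynomial ℂ) : Prop :=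
  ∃ f : OnePoint ℂ → OnePoint ℂ, Continuous f ∧
    (∀ z : ℂ, Q.eval z ≠ 0 → f (OnePoint.some z) = OnePoint.some (P.eval z / Q.eval z)) ∧
    ∀ c : OnePoint ℂ, (¬ ∃ U ∈ nhds c, Set.InjOn f U) →
      ∃ z : OnePoint ℂ, ∃ n : ℕ, 0 < n ∧ f^[n] z = z ∧
        (∃ U ∈ nhds z, ∀ w ∈ U,
          Filter.Tendsto (fun k : ℕ => f^[n * k] w) Filter.atTop (nhds z)) ∧
        Filter.Tendsto (fun k : ℕ => f^[n * k] c) Filter.atTop (nhds z)

/-- `P/Q` is a hyperbolic rational map of degree exactly `d`. -/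
def IsHypDeg (d : ℕ) (P Q : Polynomial ℂ) : Prop :=
  IsCoprime P Q ∧ max P.natDegree Q.natDegree = d ∧ IsHyperbolic P Q

/-- The polynomial of degree at most `d` with coefficients `v`. -/
noncomputable def poly {d : ℕ} (v : Fin (d + 1) → ℂ) : Polynomial ℂ := ∑ i, C (v i) * X ^ (i : ℕ)

/-- Pairs of polynomials of degree at most `d`, given by their coefficients (maximum norm,
Lebesgue measure). -/
abbrev Pairs (d : ℕ) : Type := (Fin (d + 1) → ℂ) × (Fin (d + 1) → ℂ)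

/-- The resultant of a pair, homogeneous of degree `2d`; it vanishes exactly on the boundary of the
space of rational maps of degree `d`. -/
noncomputable def Res {d : ℕ} (v : Pairs d) : ℂ := resultant (poly v.1) (poly v.2) d d

/-- Let `d ≥ 2` and `ε > 0`. For all small `δ > 0`: among the pairs `(P, Q)` of polynomials of
degree at most `d` with coefficients at most one and `|Res(P, Q)| ≤ δ`, the proportion of the pairs
such that `P/Q` is not a hyperbolic rational map of degree `d` is at most `ε / log (1/δ)`. -/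
theorem result (d : ℕ) (hd : 2 ≤ d) (ε : ℝ) (hε : 0 < ε) : ∃ δ₀ : ℝ, 0 < δ₀ ∧ δ₀ < 1 ∧
    ∀ δ : ℝ, 0 < δ → δ ≤ δ₀ →
      volume {v : Pairs d | ‖v‖ ≤ 1 ∧ ‖Res v‖ ≤ δ ∧ ¬ IsHypDeg d (poly v.1) (poly v.2)} ≤
        ENNReal.ofReal (ε / Real.log (1 / δ)) *
          volume {v : Pairs d | ‖v‖ ≤ 1 ∧ ‖Res v‖ ≤ δ} := by
  have h := Pool.Agent.H84.SR.main2 hd
  obtain ⟨c, hc, hlow⟩ := Pool.Agent.H84.SR.low (d := d) (by omega)
  have hε' : (0 : ENNReal) < ENNReal.ofReal ε := ENNReal.ofReal_pos.2 hε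
  have hev := (h.eventually (gt_mem_nhds hε'))
  rw [eventually_nhdsWithin_iff, Metric.eventually_nhds_iff] at hev
  obtain ⟨r, hr, hev⟩ := hev
  refine ⟨min (r / 2) (1 / 2), by positivity, lt_of_le_of_lt (min_le_right _ _) (by norm_num),
    fun δ hδ hδ' => ?_⟩
  have hδr : δ ≤ r / 2 := hδ'.trans (min_le_left _ _)
  have hδ2 : δ ≤ 1 / 2 := hδ'.trans (min_le_right _ _)
  have hL : 0 < Real.log (1 / δ) := by
    apply Real.log_pos
    rw [lt_div_iff₀ hδ]
    linarith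
  have h1 := hev (y := δ) (by rw [Real.dist_eq, sub_zero, abs_of_pos hδ]; linarith) hδ
  have hall : volume {v : Pairs d | ‖v‖ ≤ 1 ∧ ‖Res v‖ ≤ δ} ≠ ⊤ := by
    refine ne_top_of_le_ne_top (measure_closedBall_lt_top (x := (0 : Pairs d)) (r := 1)).ne
      (measure_mono ?_)
    rintro v ⟨hv, -⟩
    simpa using hv
  have hpos : volume {v : Pairs d | ‖v‖ ≤ 1 ∧ ‖Res v‖ ≤ δ} ≠ 0 := by
    refine (lt_of_lt_of_le ?_ (hlow δ hδ hδ2)).ne'
    rw [ENNReal.ofReal_pos]
    positivity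
  have hsub : volume {v : Pairs d | ‖v‖ ≤ 1 ∧ ‖Res v‖ ≤ δ ∧ ¬ IsHypDeg d (poly v.1) (poly v.2)} ≤
      volume {v : Pool.Agent.H84.SR.E d | ‖v‖ ≤ 1 ∧ Pool.Agent.H84.SR.rs v ≤ δ ∧
        ¬ Pool.Agent.H84.SR.HypDeg d (Pool.Agent.H84.SR.pol v.1) (Pool.Agent.H84.SR.pol v.2)} := by
    refine measure_mono ?_
    rintro v ⟨h1, h2, h3⟩
    refine ⟨h1, h2, ?_⟩
    rintro ⟨h4, h5, h6⟩
    exact h3 ⟨h4, h5, (Pool.Agent.H32.BT.hyp_iff h4 (by rw [h5]; omega)).2 h6⟩
  refine hsub.trans ?_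
  have h2 := (ENNReal.div_le_iff hpos hall).1 h1.le
  rw [ENNReal.ofReal_div_of_pos hL, div_eq_mul_inv, mul_right_comm, ← div_eq_mul_inv,
    ENNReal.le_div_iff_mul_le (Or.inl (ENNReal.ofReal_pos.2 hL).ne')
      (Or.inl ENNReal.ofReal_ne_top), mul_comm]
  exact h2

end Pool.Agent.Results.MP_8f2e1c_an.SmallResultant
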