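import Mathlib
import Pool.Agent.H8.SS.Ge

/-!
# The sum of square roots problem: polynomial time under a small perturbation

One deterministic algorithm decides every instance of the sum of square roots problem (`∑ √d ≥ k`, the integer `k` has a
sign); if the radicands are perturbed in intervals of length at least `K n` its mean running time is polynomial in the size of
the instance, and already `m` intervals of length `K m` make the probability of a running time beyond `Λ ^ m` times a
polynomial at most `(2 Λ) ^ (-m)`.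
-/

set_option autoImplicit false

namespace Pool.Agent.Results.MP_dd013b_lc.SmoothedNoise

open Pool.Agent.H92.SR Pool.Agent.H92.SR.Tr Pool.Agent.H8.SS

open Classical in
theorem result : ∃ (c : Prog) (T : List ℕ → ℤ → ℕ) (q : Polynomial ℕ) (K Λ : ℕ), 1 ≤ Λ ∧
    (∀ (L : List ℕ) (k : ℤ),
      Eval c (encS L k) (bit (decide ((k : ℝ) ≤ (L.map fun a : ℕ => √(a : ℝ)).sum))) (T L k)) ∧
    ∀ (n : ℕ) (k : ℤ) (A W : Fin n → ℕ),
      ((∀ i, K * n ≤ W i) →
        ∑ a ∈ Fintype.piFinset (fun i => Finset.Ioc (A i) (A i + W i)), T (List.ofFn a) k ≤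
          (∏ i, W i) * q.eval (n + ∑ i, Nat.size (A i + W i) + Nat.size k.natAbs)) ∧
      ∀ m : ℕ, m ≤ (Finset.univ.filter fun i => K * m ≤ W i).card →
        ((Fintype.piFinset (fun i => Finset.Ioc (A i) (A i + W i))).filter fun a =>
          q.eval (n + ∑ i, Nat.size (A i + W i) + Nat.size k.natAbs) * Λ ^ m <
            T (List.ofFn a) k).card * (2 * Λ) ^ m ≤ ∏ i, W i := by
  obtain ⟨c, T, q, K, Λ, hΛ, h1, h3, h4⟩ := ge1
  exact ⟨c, T, q, K, Λ, hΛ, h1, fun n k A W => ⟨h3 n k A W, fun m => h4 n k m A W⟩⟩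

end Pool.Agent.Results.MP_dd013b_lc.SmoothedNoise
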