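import Mathlib
import Pool.Agent.H41.TG.Main

/-!
# Sets of integers with three gap lengths `u`, `v`, `u + v`

If a set of integers contains arbitrarily long sequences whose consecutive differences are
`u`, `v` or `u + v` (for example a set all of whose gaps have these lengths, as in the three gap
theorem), its difference set contains the multiples `n` of `gcd u v` with `n θ` close to an
integer, for one real number `θ`. The radius is sharp.
-/

set_option autoImplicit false

namespace Pool.Agent.H41.Old.ThreeGaps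

/-- For every `N` there are `s 0, ..., s N` in `A` with consecutive differences in `D`. -/
def Chains (A D : Set ℤ) : Prop :=
  ∀ N : ℕ, ∃ s : ℕ → ℤ, (∀ i ≤ N, s i ∈ A) ∧ ∀ i < N, s (i + 1) - s i ∈ D

/-- Every multiple `n` of `g` such that the distance of `n θ` to the nearest integer is less
than `r` is a difference of two elements of `A`. -/
def Bohr (A : Set ℤ) (g : ℤ) (θ r : ℝ) : Prop :=
  ∀ n : ℤ, g ∣ n → |n * θ - round (n * θ)| < r → ∃ x ∈ A, ∃ y ∈ A, n = x - y

private theorem bound_max (u v : ℤ) (hu : 0 < u) (hv : 0 < v) (a b : ℝ)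
    (h : a * v + b * u = Int.gcd u v) :
    (Int.gcd u v : ℝ) / (u + v) ≤ max a b := by
  have hur : (0 : ℝ) < u := by exact_mod_cast hu
  have hvr : (0 : ℝ) < v := by exact_mod_cast hv
  rw [div_le_iff₀ (by positivity), ← h]
  have h1 := le_max_left a b
  have h2 := le_max_right a b
  nlinarith

private theorem bound_add (u v : ℤ) (hu : 0 < u) (a b : ℝ) (ha : 0 ≤ a) (hb : 0 ≤ b)
    (h : a * v + b * u = Int.gcd u v) :
    (Int.gcd u v : ℝ) / (max u v : ℤ) ≤ a + b := by
  have hm : (0 : ℝ) < (max u v : ℤ) := by exact_mod_cast lt_max_of_lt_left hu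
  have h1 : (u : ℝ) ≤ (max u v : ℤ) := by exact_mod_cast le_max_left u v
  have h2 : (v : ℝ) ≤ (max u v : ℤ) := by exact_mod_cast le_max_right u v
  rw [div_le_iff₀ hm, ← h]
  nlinarith

private theorem sharp_dvd (w : ℤ) (g : ℕ) (hg : 0 < g) (hgw : (g : ℤ) ∣ w) (hlt : (g : ℤ) < w)
    (θ r : ℝ) (h : Bohr {x | w ∣ x} g θ r) : r ≤ (g : ℝ) / w := by
  obtain ⟨M, hM⟩ := hgw
  have hgz : (0 : ℤ) < g := by exact_mod_cast hg
  have hM2 : 2 ≤ M := by
    by_contra hc
    push Not at hc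
    have : w ≤ g * 1 := by
      rw [hM]
      exact mul_le_mul_of_nonneg_left (by omega) hgz.le
    omega
  obtain ⟨m, rfl⟩ : ∃ m : ℕ, (m : ℤ) = M := ⟨M.toNat, Int.toNat_of_nonneg (by omega)⟩
  have h1 := Pool.Agent.H41.TG.sharp g hgz m (by omega) θ r (by
    intro n hn hlt'
    obtain ⟨x, hx, y, hy, rfl⟩ := h n hn hlt'
    rw [← hM]
    exact dvd_sub hx hy)
  have e : (g : ℝ) / w = 1 / m := by
    rw [hM]
    push_cast
    have : (g : ℝ) ≠ 0 := by exact_mod_cast hg.ne'
    have hm0 : (m : ℝ) ≠ 0 := by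
      have : (2 : ℤ) ≤ m := hM2
      exact_mod_cast (by omega : m ≠ 0)
    field_simp
  rw [e]
  exact h1

/-- **(1)** Let `u, v` be positive integers with greatest common divisor `g`. If `A` has
arbitrarily long chains with differences `u`, `v`, `u + v`, there are `θ` and `a, b ≥ 0` with
`a v + b u = g`, `u θ + a` and `v θ - b` integers, such that every multiple `n` of `g` with
`n θ` at distance less than `max a b ≥ g / (u + v)` from the nearest integer is in `A - A`;
if only the differences `u`, `v` are used, this holds with `a + b ≥ g / max u v`. For the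
multiples of `u + v` (of `max u v ≠ g`) no radius above `g / (u + v)` (above `g / max u v`)
is possible. **(2)** If `A` is not empty and consists of blocks of at least `m ≥ 1` consecutive
integers separated by holes of lengths between `L` and `L + m`, there is `θ` such that every `n`
with `n θ` at distance less than `1 / (L + m + 1)` from the nearest integer is in `A - A`. -/
theorem result :
    (∀ u v : ℤ, 0 < u → 0 < v →
      (∀ A : Set ℤ, Chains A {u, v, u + v} → ∃ θ a b : ℝ, 0 ≤ a ∧ 0 ≤ b ∧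
        a * v + b * u = Int.gcd u v ∧ (∃ k : ℤ, u * θ + a = k) ∧ (∃ k : ℤ, v * θ - b = k) ∧
        (Int.gcd u v : ℝ) / (u + v) ≤ max a b ∧ Bohr A (Int.gcd u v) θ (max a b)) ∧
      (∀ A : Set ℤ, Chains A {u, v} → ∃ θ a b : ℝ, 0 ≤ a ∧ 0 ≤ b ∧
        a * v + b * u = Int.gcd u v ∧ (∃ k : ℤ, u * θ + a = k) ∧ (∃ k : ℤ, v * θ - b = k) ∧
        (Int.gcd u v : ℝ) / (max u v : ℤ) ≤ a + b ∧ Bohr A (Int.gcd u v) θ (a + b)) ∧
      (∀ θ r : ℝ, Bohr {x | u + v ∣ x} (Int.gcd u v) θ r →
        r ≤ (Int.gcd u v : ℝ) / (u + v)) ∧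
      (u ≠ v → ∀ θ r : ℝ, Bohr {x | max u v ∣ x} (Int.gcd u v) θ r →
        r ≤ (Int.gcd u v : ℝ) / (max u v : ℤ))) ∧
    (∀ (L m : ℕ) (A : Set ℤ), 1 ≤ m → A.Nonempty →
      (∀ b ∈ A, b + 1 ∈ A ∨ ∃ l : ℕ, L ≤ l ∧ l ≤ L + m ∧
        ∀ j : ℕ, 1 ≤ j → j ≤ m → b + l + j ∈ A) →
      ∃ θ : ℝ, Bohr A 1 θ (1 / (L + m + 1))) := by
  have hthree : ∀ u v : ℤ, 0 < u → 0 < v → ∀ A : Set ℤ, Chains A {u, v, u + v} →
      ∃ θ a b : ℝ, 0 ≤ a ∧ 0 ≤ b ∧
        a * v + b * u = Int.gcd u v ∧ (∃ k : ℤ, u * θ + a = k) ∧ (∃ k : ℤ, v * θ - b = k) ∧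
        (Int.gcd u v : ℝ) / (u + v) ≤ max a b ∧ Bohr A (Int.gcd u v) θ (max a b) := by
    intro u v hu hv A hA
    obtain ⟨θ, a, b, ha, hb, hab, h1, h2, h3⟩ := Pool.Agent.H41.TG.three u v hu hv A hA
    exact ⟨θ, a, b, ha, hb, hab, h1, h2, bound_max u v hu hv a b hab, h3⟩
  refine ⟨fun u v hu hv => ⟨hthree u v hu hv, fun A hA => ?_, fun θ r h => ?_, fun huv θ r h => ?_⟩,
    fun L m A hm hne hA => ?_⟩
  · obtain ⟨θ, a, b, ha, hb, hab, h1, h2, h3⟩ := Pool.Agent.H41.TG.two u v hu hv A hA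
    exact ⟨θ, a, b, ha, hb, hab, h1, h2, bound_add u v hu a b ha hb hab, h3⟩
  · have hg : 0 < Int.gcd u v := Int.gcd_pos_of_ne_zero_left v hu.ne'
    have h1 : (Int.gcd u v : ℤ) ∣ u := Int.gcd_dvd_left u v
    have h2 : (Int.gcd u v : ℤ) ∣ v := Int.gcd_dvd_right u v
    have h3 := sharp_dvd (u + v) (Int.gcd u v) hg (dvd_add h1 h2)
      (by have := Int.le_of_dvd hu h1; omega) θ r h
    rw [show (u : ℝ) + v = ((u + v : ℤ) : ℝ) by push_cast; ring]
    exact h3
  · have hg : 0 < Int.gcd u v := Int.gcd_pos_of_ne_zero_left v hu.ne'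
    have h1 : (Int.gcd u v : ℤ) ∣ u := Int.gcd_dvd_left u v
    have h2 : (Int.gcd u v : ℤ) ∣ v := Int.gcd_dvd_right u v
    have h4 := Int.le_of_dvd hu h1
    have h5 := Int.le_of_dvd hv h2
    refine sharp_dvd (max u v) (Int.gcd u v) hg ?_ ?_ θ r h
    · rcases max_choice u v with h3 | h3
      · rw [h3]; exact h1
      · rw [h3]; exact h2
    · omega
  · have hch : Chains A {1, ((L + m : ℕ) : ℤ), 1 + ((L + m : ℕ) : ℤ)} := by
      have hnext : ∀ b ∈ A, ∃ c ∈ A, c - b ∈ ({1, ((L + m : ℕ) : ℤ), 1 + ((L + m : ℕ) : ℤ)} :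
          Set ℤ) := by
        intro b hb
        rcases hA b hb with h | ⟨l, hl1, hl2, hl⟩
        · exact ⟨b + 1, h, Or.inl (by ring)⟩
        · rcases eq_or_lt_of_le hl2 with he | hlt
          · refine ⟨b + l + (1 : ℕ), hl 1 (le_refl _) hm, Or.inr (Or.inr ?_)⟩
            rw [Set.mem_singleton_iff, he]
            push_cast
            ring
          · refine ⟨b + l + ((L + m - l : ℕ) : ℤ), hl (L + m - l) (by omega) (by omega),
              Or.inr (Or.inl ?_)⟩
            rw [Nat.cast_sub (by omega)]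
            push_cast
            ring
      choose! f hf1 hf2 using hnext
      obtain ⟨b0, hb0⟩ := hne
      intro N
      have hmem : ∀ i : ℕ, f^[i] b0 ∈ A := by
        intro i
        induction i with
        | zero => exact hb0
        | succ n ih =>
          rw [Function.iterate_succ_apply']
          exact hf1 _ ih
      refine ⟨fun i => f^[i] b0, fun i _ => hmem i, fun i _ => ?_⟩
      show f^[i + 1] b0 - f^[i] b0 ∈ _
      rw [Function.iterate_succ_apply']
      exact hf2 _ (hmem i)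
    obtain ⟨θ, a, b, -, -, -, -, -, h6, h7⟩ := hthree 1 ((L + m : ℕ) : ℤ) one_pos
      (by exact_mod_cast (by omega : 0 < L + m)) A hch
    refine ⟨θ, fun n hn hlt => h7 n (by simp) (lt_of_lt_of_le hlt ?_)⟩
    have e : (1 : ℝ) / (L + m + 1) = (Int.gcd 1 ((L + m : ℕ) : ℤ) : ℝ) /
        (((1 : ℤ) : ℝ) + (((L + m : ℕ) : ℤ) : ℝ)) := by
      simp [add_comm]
    rw [e]
    exact h6

end Pool.Agent.H41.Old.ThreeGaps
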